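import Pool.Agent.Q44.SA.Stm
import Pool.Agent.Q149.WK.IN

/-!
# Project SA (helper44), job SA-NO: `S_normA` (elimination). Author of this file: helper149.
-/

set_option autoImplicit false

namespace Pool.Agent.Q149.SA.NO

open MvPolynomial Pool.Agent.Q44.SA

/-- a polynomial in three of the variables, in the ideal generated by `I` and `f` -/
theorem inIdeal {K : Type} [Field K] {n : ℕ} (I : Ideal (MvPolynomial (Fin n) K)) (hI : I.IsPrime)
    (htr : Algebra.trdeg K (MvPolynomial (Fin n) K ⧸ I) = 3) (f : MvPolynomial (Fin n) K) (hf : f ∉ I)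
    (a : Fin 3 → Fin n) : ∃ B : MvPolynomial (Fin 3) K, B ≠ 0 ∧
      ∃ g h : MvPolynomial (Fin n) K, g ∈ I ∧ aeval (fun i => (X (a i) : MvPolynomial (Fin n) K)) B = g + f * h := by
  have hI' : I.IsPrime := hI
  obtain ⟨t, ht'⟩ : ∃ t : Fin 3 → MvPolynomial (Fin n) K ⧸ I, t = fun i => Ideal.Quotient.mk I (X (a i)) := ⟨_, rfl⟩
  have ht : ∀ B : MvPolynomial (Fin 3) K,
      aeval t B = Ideal.Quotient.mk I (aeval (fun i => (X (a i) : MvPolynomial (Fin n) K)) B) := by
    intro B
    have h1 : (aeval t : MvPolynomial (Fin 3) K →ₐ[K] MvPolynomial (Fin n) K ⧸ I) =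
        (Ideal.Quotient.mkₐ K I).comp (aeval (fun i => (X (a i) : MvPolynomial (Fin n) K))) := by
      ext i
      rw [ht']
      simp
    rw [h1]
    rfl
  by_cases hai : AlgebraicIndependent K t
  · have htb : IsTranscendenceBasis K t := hai.isTranscendenceBasis_of_trdeg_le_of_finite (by rw [htr]; simp)
    have halg := htb.isAlgebraic
    have hmk : Ideal.Quotient.mk I f ≠ 0 := fun h => hf (Ideal.Quotient.eq_zero_iff_mem.1 h)
    obtain ⟨r, hr, hdvd⟩ := (halg.isAlgebraic (Ideal.Quotient.mk I f)).exists_nonzero_dvd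
      (mem_nonZeroDivisors_of_ne_zero hmk)
    obtain ⟨B, hB⟩ : ∃ B : MvPolynomial (Fin 3) K, aeval t B = (r : MvPolynomial (Fin n) K ⧸ I) := by
      have h2 : (r : MvPolynomial (Fin n) K ⧸ I) ∈ (aeval t : MvPolynomial (Fin 3) K →ₐ[K] _).range :=
        (Algebra.adjoin_range_eq_range_aeval K t).le r.2
      exact h2
    obtain ⟨s, hs⟩ := hdvd
    obtain ⟨h, rfl⟩ := Ideal.Quotient.mk_surjective s
    have h3 : (r : MvPolynomial (Fin n) K ⧸ I) = Ideal.Quotient.mk I f * Ideal.Quotient.mk I h := hs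
    refine ⟨B, ?_, aeval (fun i => (X (a i) : MvPolynomial (Fin n) K)) B - f * h, h, ?_, by ring⟩
    · rintro rfl
      rw [map_zero] at hB
      exact hr (Subtype.ext hB.symm)
    · rw [← Ideal.Quotient.eq_zero_iff_mem, map_sub, map_mul, ← ht, hB, h3, sub_self]
  · rw [algebraicIndependent_iff] at hai
    push Not at hai
    obtain ⟨B, hB, hB0⟩ := hai
    refine ⟨B, hB0, aeval (fun i => (X (a i) : MvPolynomial (Fin n) K)) B, 0, ?_, by ring⟩
    rw [← Ideal.Quotient.eq_zero_iff_mem, ← ht, hB]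

/-- a homogeneous component of a nonzero polynomial which is not zero -/
theorem comp_ne {K : Type} [Field K] (B : MvPolynomial (Fin 3) K) (hB : B ≠ 0) :
    ∃ d, homogeneousComponent d B ≠ 0 := by
  by_contra h
  push Not at h
  apply hB
  rw [← sum_homogeneousComponent B]
  exact Finset.sum_eq_zero fun i _ => h i

theorem eval_smul_homog {K : Type} [Field K] {n d : ℕ} {h : MvPolynomial (Fin n) K} (hh : h.IsHomogeneous d)
    (s : K) (x : Fin n → K) : eval (s • x) h = s ^ d * eval x h := by
  rw [eval_eq', eval_eq', Finset.mul_sum]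
  refine Finset.sum_congr rfl fun u hu => ?_
  have h1 : ∑ i, u i = d := by
    have h2 := hh (mem_support_iff.1 hu)
    rw [Finsupp.weight_apply, Finsupp.sum_fintype _ _ (fun i => by simp)] at h2
    simpa using h2
  have h3 : ∏ i, (s • x) i ^ u i = s ^ d * ∏ i, x i ^ u i := by
    simp only [Pi.smul_apply, smul_eq_mul, mul_pow, Finset.prod_mul_distrib]
    rw [Finset.prod_pow_eq_pow_sum, h1]
  rw [h3]
  ring

/-- the values of an element of a homogeneous ideal at the multiples of a point -/
theorem eval_smul_zero {K : Type} [Field K] {n : ℕ} {I : Ideal (MvPolynomial (Fin n) K)} (hI : Homog I)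
    {x : Fin n → K} (hx : Pt (RingHom.id K) I x) {g : MvPolynomial (Fin n) K} (hg : g ∈ I) (s : K) :
    eval (s • x) g = 0 := by
  rw [← sum_homogeneousComponent g, map_sum]
  refine Finset.sum_eq_zero fun i _ => ?_
  have h1 : eval x (homogeneousComponent i g) = 0 := hx.2 _ (hI g hg i)
  rw [eval_smul_homog (homogeneousComponent_isHomogeneous i g), h1, mul_zero]

theorem main : S_normA := by
  intro K _ _ n I hI hhom htr f hf a
  obtain ⟨B, hB, g, h, hg, he⟩ := inIdeal I hI htr f hf a
  obtain ⟨d, hd⟩ := comp_ne B hB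
  refine ⟨d, homogeneousComponent d B, homogeneousComponent_isHomogeneous d B, hd, fun x hx hfx => ?_⟩
  refine Pool.Agent.Q149.WK.IN.comp_zero B (x ∘ a) (fun s => ?_) d
  have h1 : eval (s • x) (aeval (fun i => (X (a i) : MvPolynomial (Fin n) K)) B) = eval (s • (x ∘ a)) B := by
    have h2 : (eval (s • x)).comp (aeval (fun i => (X (a i) : MvPolynomial (Fin n) K)) :
        MvPolynomial (Fin 3) K →ₐ[K] MvPolynomial (Fin n) K).toRingHom = eval (s • (x ∘ a)) := by
      ext i <;> simp
    exact RingHom.congr_fun h2 B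
  rw [← h1, he, map_add, map_mul, eval_smul_zero hhom hx hg s, hfx s, zero_mul, add_zero]

end Pool.Agent.Q149.SA.NO
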