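import Pool.Agent.Q44.SA.Stm

/-!
# Project SA (helper44), job SA-UB: `S_ncM`, `S_unbM`, `S_growM`. Author of this file: helper149.

The proofs follow `Pool/Agent/Q151/WK/Grow.lean` (helper151) and `Pool/Agent/Q96/WK/UB.lean` (helper96).
-/

set_option autoImplicit false

namespace Pool.Agent.Q149.SA.UB

open Pool.Agent.Q44.SA Height MvPolynomial

theorem grow : S_growM := by
  intro u κ c hκ h0 hrec hunb
  obtain ⟨B, hB⟩ : ∃ B : ℝ, B = max (|c| / (κ / 2 - 1)) (max 1 (u 0)) := ⟨_, rfl⟩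
  have hκ' : 0 < κ / 2 - 1 := by linarith
  have hBc : |c| / (κ / 2 - 1) ≤ B := hB ▸ le_max_left _ _
  have hB1 : 1 ≤ B := hB ▸ (le_max_left _ _).trans (le_max_right _ _)
  have hB0 : u 0 ≤ B := hB ▸ (le_max_right _ _).trans (le_max_right _ _)
  have hc : c ≤ B * (κ / 2 - 1) := by
    rw [div_le_iff₀ hκ'] at hBc
    exact (le_abs_self c).trans hBc
  classical
  obtain ⟨k, hk, hmin⟩ : ∃ k, B < u k ∧ ∀ j < k, ¬ B < u j :=
    ⟨Nat.find (hunb B), Nat.find_spec (hunb B), fun j hj => Nat.find_min (hunb B) hj⟩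
  have hk0 : k ≠ 0 := by
    intro h
    rw [h] at hk
    linarith
  obtain ⟨i, rfl⟩ : ∃ i, k = i + 1 := ⟨k - 1, by omega⟩
  have hi : u i ≤ B := not_lt.1 (hmin i (Nat.lt_succ_self i))
  have step : ∀ p q r : ℝ, κ * q ≤ p + r + c → B < q → p ≤ q → κ / 2 * q ≤ r := by
    intro p q r h1 h2 h3
    have h4 : B * (κ / 2 - 1) ≤ q * (κ / 2 - 1) := mul_le_mul_of_nonneg_right h2.le hκ'.le
    linarith
  have key : ∀ j, B < u (i + 1 + j) ∧ κ / 2 * u (i + 1 + j) ≤ u (i + 1 + j + 1) := by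
    intro j
    induction j with
    | zero =>
      refine ⟨hk, ?_⟩
      have h1 := hrec i
      have e : i + 2 = i + 1 + 1 := rfl
      rw [e] at h1
      simp only [add_zero]
      exact step _ _ _ h1 hk (hi.trans hk.le)
    | succ j ih =>
      obtain ⟨h1, h2⟩ := ih
      have hpos : 0 < u (i + 1 + j) := by linarith
      have h4 : u (i + 1 + j) ≤ u (i + 1 + j + 1) := by
        have h5 : 0 < (κ / 2 - 1) * u (i + 1 + j) := mul_pos hκ' hpos
        linarith
      have h3 : B < u (i + 1 + (j + 1)) := by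
        have e : i + 1 + (j + 1) = i + 1 + j + 1 := rfl
        rw [e]
        linarith
      refine ⟨h3, ?_⟩
      have h5 := hrec (i + 1 + j)
      have e1 : i + 1 + (j + 1) = i + 1 + j + 1 := rfl
      have e2 : i + 1 + (j + 1) + 1 = i + 1 + j + 2 := rfl
      rw [e1] at h3
      rw [e2, e1]
      exact step _ _ _ h5 h3 h4
  refine ⟨κ / 2, by linarith, i + 1, fun j hj => ?_⟩
  obtain ⟨l, rfl⟩ : ∃ l, j = i + 1 + l := ⟨j - (i + 1), by omega⟩
  obtain ⟨h1, h2⟩ := key l
  exact ⟨h2, by linarith⟩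

theorem nc : S_ncM := by
  intro K _ _ n B
  classical
  have hfin : {x : K | logHeight₁ x ≤ B}.Finite := NumberField.finite_setOfPred_logHeight₁_le K B
  refine ⟨Fintype.piFinset (fun _ : Fin n => hfin.toFinset), ?_⟩
  intro x hx hB
  obtain ⟨b, hb⟩ : ∃ b, x b ≠ 0 := by
    by_contra h
    push Not at h
    exact hx (funext h)
  refine ⟨fun a => x a / x b, ?_, x b, hb, ?_⟩
  · rw [Fintype.mem_piFinset]
    intro a
    rw [Set.Finite.mem_toFinset]
    change logHeight₁ (x a / x b) ≤ B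
    rw [logHeight₁_div_eq_logHeight]
    have h1 := logHeight_comp_le ![a, b] x
    have h2 : x ∘ ![a, b] = ![x a, x b] := by
      funext i
      fin_cases i <;> rfl
    rw [h2] at h1
    exact h1.trans hB
  · funext a
    simp only [Pi.smul_apply, smul_eq_mul]
    field_simp

/-- the image of a point is unique up to scalars -/
theorem rel_uni {K F : Type} [Field K] [Field F] (σ : K →+* F) {n : ℕ} {I : Ideal (MvPolynomial (Fin n) K)}
    (φ : Mor I) {x y y' : Fin n → F} (hx : Pt σ I x) (h : φ.Rel σ x y) (h' : φ.Rel σ x y') :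
    ∃ t : F, t ≠ 0 ∧ y' = t • y := by
  obtain ⟨l, ⟨a, ha⟩, c, hc, hy⟩ := h
  obtain ⟨l', ⟨a', ha'⟩, c', hc', hy'⟩ := h'
  have hag : ∀ a b, eval₂ σ x (φ.F l a) * eval₂ σ x (φ.F l' b) = eval₂ σ x (φ.F l b) * eval₂ σ x (φ.F l' a) := by
    intro a b
    have h1 := hx.2 _ (φ.agree l l' a b)
    rw [eval₂_sub, eval₂_mul, eval₂_mul] at h1
    exact sub_eq_zero.1 h1
  have h2 : eval₂ σ x (φ.F l' a) ≠ 0 := by
    intro h3
    have h4 := hag a a'
    rw [h3, mul_zero] at h4
    exact mul_ne_zero ha ha' h4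
  refine ⟨c' * eval₂ σ x (φ.F l' a) / (c * eval₂ σ x (φ.F l a)),
    div_ne_zero (mul_ne_zero hc' h2) (mul_ne_zero hc ha), ?_⟩
  funext b
  rw [Pi.smul_apply, smul_eq_mul, hy', hy]
  have h5 := hag a b
  field_simp
  linear_combination h5

/-- periodic sequences of real numbers -/
lemma periodic_max (u : ℕ → ℝ) (n : ℕ) (hn : 0 < n) (hp : ∀ i, u i = u (i + n)) :
    ∃ k, 0 < k ∧ ∀ i, u i ≤ u k := by
  obtain ⟨k, hk, hmax⟩ := Finset.exists_max_image (Finset.Icc 1 n) u ⟨1, Finset.mem_Icc.2 ⟨le_refl 1, hn⟩⟩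
  refine ⟨k, (Finset.mem_Icc.1 hk).1, fun i => ?_⟩
  have h : ∀ m i, i ≤ m → u i ≤ u k := by
    intro m
    induction m with
    | zero =>
      intro i hi
      have h0 : i = 0 := by omega
      rw [h0, hp 0, zero_add]
      exact hmax n (Finset.mem_Icc.2 ⟨hn, le_refl n⟩)
    | succ m ih =>
      intro i hi
      rcases Nat.eq_zero_or_pos i with h0 | h0
      · exact ih i (by omega)
      · rcases le_or_gt i n with h1 | h1
        · exact hmax i (Finset.mem_Icc.2 ⟨h0, h1⟩)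
        · have h2 := hp (i - n)
          have h3 : i - n + n = i := by omega
          rw [h3] at h2
          rw [← h2]
          exact ih (i - n) (by omega)
  exact h i i le_rfl

theorem unb (h1 : S_rel) : S_unbM := by
  intro K _ _ n I φ ψ hinv κ c hκ z hz hrec hc B
  by_contra hcon
  push Not at hcon
  have hz0 : ∀ k, z k ≠ 0 := fun k => (hz.1 k).1
  obtain ⟨S, hS⟩ := nc K n B
  have hrep : ∀ k, ∃ s : S, ∃ t : K, t ≠ 0 ∧ z k = t • (s : Fin n → K) := by
    intro k
    obtain ⟨s, hs, t, ht, hzt⟩ := hS (z k) (hz0 k) (hcon k)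
    exact ⟨⟨s, hs⟩, t, ht, hzt⟩
  choose r hr using hrep
  obtain ⟨k, l, hkl, heq⟩ := Finite.exists_ne_map_eq_of_infinite r
  -- one step up and one step down
  have hup : ∀ i j, (∃ t : K, t ≠ 0 ∧ z i = t • z j) → ∃ t : K, t ≠ 0 ∧ z (i + 1) = t • z (j + 1) := by
    rintro i j ⟨t, ht, he⟩
    have h2 := ((h1 K K (RingHom.id K) n I φ ψ hinv (z j) (hz.1 j)).2 (z (j + 1)) (hz.2 j)).2.2.2 t ht (z (i + 1))
    rw [← he] at h2
    exact h2 (hz.2 i)
  have hdown : ∀ i j, (∃ t : K, t ≠ 0 ∧ z (i + 1) = t • z (j + 1)) → ∃ t : K, t ≠ 0 ∧ z i = t • z j := by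
    rintro i j ⟨t, ht, he⟩
    have h2 := ((h1 K K (RingHom.id K) n I φ ψ hinv (z j) (hz.1 j)).2 (z (j + 1)) (hz.2 j)).2.2.1 1 t one_ne_zero ht
    rw [one_smul, ← he] at h2
    have h3 := ((h1 K K (RingHom.id K) n I φ ψ hinv (z j) (hz.1 j)).2 (z (i + 1)) h2).2.1
    have h4 := ((h1 K K (RingHom.id K) n I φ ψ hinv (z i) (hz.1 i)).2 (z (i + 1)) (hz.2 i)).2.1
    exact rel_uni (RingHom.id K) ψ (hz.1 (i + 1)) h3 h4
  have key : ∀ k l : ℕ, k < l → r k = r l → False := by
    intro k l hlt he1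
    have hprop : ∃ s : K, s ≠ 0 ∧ z k = s • z l := by
      obtain ⟨t, ht, hzt⟩ := hr k
      obtain ⟨t', ht', hzt'⟩ := hr l
      refine ⟨t * t'⁻¹, mul_ne_zero ht (inv_ne_zero ht'), ?_⟩
      rw [hzt', smul_smul, mul_assoc, inv_mul_cancel₀ ht', mul_one, ← he1]
      exact hzt
    obtain ⟨p, hp⟩ : ∃ p, l = k + p := ⟨l - k, by omega⟩
    have hd : ∀ i, (∃ s : K, s ≠ 0 ∧ z i = s • z (i + p)) → ∃ s : K, s ≠ 0 ∧ z 0 = s • z (0 + p) := by
      intro i
      induction i with
      | zero => exact id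
      | succ i ih =>
        intro h
        apply ih
        apply hdown
        have e : i + 1 + p = i + p + 1 := by omega
        rwa [e] at h
    rw [hp] at hprop
    have hu : ∀ i, ∃ s : K, s ≠ 0 ∧ z i = s • z (i + p) := by
      intro i
      induction i with
      | zero => exact hd k hprop
      | succ i ih =>
        have h := hup _ _ ih
        have e : i + 1 + p = i + p + 1 := by omega
        rwa [e]
    have hper : ∀ i, logHeight (z i) = logHeight (z (i + p)) := by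
      intro i
      obtain ⟨s, hs, he⟩ := hu i
      rw [he, logHeight_smul_eq_logHeight _ hs]
    obtain ⟨m, hm, hmax⟩ := periodic_max (fun i => logHeight (z i)) p (by omega) hper
    obtain ⟨m', rfl⟩ : ∃ m', m = m' + 1 := ⟨m - 1, by omega⟩
    have h4 := hrec m'
    have h5 := hmax m'
    have h6 := hmax (m' + 2)
    have h7 := hmax 0
    have h8 : (κ - 2) * logHeight (z 0) ≤ (κ - 2) * logHeight (z (m' + 1)) :=
      mul_le_mul_of_nonneg_left h7 (by linarith)
    linarith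
  rcases lt_or_gt_of_ne hkl with h | h
  · exact key k l h heq
  · exact key l k h heq.symm

end Pool.Agent.Q149.SA.UB
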